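import Pool.Agent.H65.ME.Ari

/-!
# Almost prime models of Ehrenfeucht theories

Definitions: `Pool/Agent/H65/ME/Defs.lean` (formulas, structures with universe `ℕ`, satisfaction,
Goedel numbers, types, elementary diagram, Ehrenfeucht theories, almost prime and almost
homogeneous models, decidable models) and `Arith`, `ArithModel` in `Pool/Agent/H65/ME/Ari.lean`.
-/

namespace Pool.Agent.Results.MP_cbbcbb_lc.AlmostPrime

open Pool.Agent.H65.ME

/-- An Ehrenfeucht theory has countably many types and finitely many almost prime models
(`FewPrime`). Let the complete theory of `A` satisfy `FewPrime`, and let `M` be a model of it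
which is atomic over a finite tuple. Then `M` is almost homogeneous, it has a copy whose
elementary diagram is recursive in finitely many types of the theory, it is decidable if all
types of the theory are computable, and it has a copy with an arithmetical elementary diagram if
all types of the theory are arithmetical. -/
theorem result :
    (∀ A : Str, Ehrenfeucht A → FewPrime A) ∧
    ∀ A M : Str, FewPrime A → EE A M → AlmostPrime M →
      AlmostHom M ∧
      (∃ ts : Set (Set Fml), ts.Finite ∧ (∀ p ∈ ts, IsType A p) ∧ DecIn ts M) ∧
      ((∀ p, IsType A p → ComputablePred fun n => dec n ∈ p) → DecModel M) ∧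
      ((∀ p, IsType A p → Arith fun n => dec n ∈ p) → ArithModel M) :=
  ⟨fun _ h => few_of_ehrenfeucht h,
   fun _ _ hA hM hp =>
    ⟨hp.imp fun _ h => hom_of_atomic h, main_rel hA hM hp, fun ht => main_dec hA ht hM hp,
     fun ht => main_arith hA ht hM hp⟩⟩

end Pool.Agent.Results.MP_cbbcbb_lc.AlmostPrime
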